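import Pool.Graph.R_seed8.Y741.ULine
import Pool.Graph.R_seed8.W603.CX.Basic

/-!
Integral points on rational curves of bounded height.
-/

set_option autoImplicit false

open MvPolynomial FF Pool.Agent.W603.LV Pool.Agent.W603.PV Pool.Agent.TH145.GH

namespace Pool.Agent.H435.QL

open Pool.Agent.Y741
open Pool.Agent.Y735 (rho eval_rho pl fht po ge_coeff_mul ge_X)

section bf

variable {K : Type} [Field K] {n : ℕ}

/-- The parametrisation. -/
noncomputable def cv (r : ℕ) (ψ : Fin (n + 1) → Fin (r + 1) → K) (s t : K) : Fin (n + 1) → K :=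
  fun l => ∑ j : Fin (r + 1), ψ l j * (s ^ (j : ℕ) * t ^ (r - j))

/-- The forms of the parametrisation. -/
noncomputable def cp (r : ℕ) (ψ : Fin (n + 1) → Fin (r + 1) → K) (l : Fin (n + 1)) :
    MvPolynomial (Fin (1 + 1)) K :=
  ∑ j : Fin (r + 1), C (ψ l j) * (X 0 ^ (j : ℕ) * X 1 ^ (r - j))

/-- The binary form. -/
noncomputable def Bf (r : ℕ) (ψ : Fin (n + 1) → Fin (r + 1) → K)
    (F : MvPolynomial (Fin (n + 1)) K) : MvPolynomial (Fin (1 + 1)) K :=
  aeval (cp r ψ) F

theorem cp_hom (r : ℕ) (ψ : Fin (n + 1) → Fin (r + 1) → K) (l : Fin (n + 1)) :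
    (cp r ψ l).IsHomogeneous r := by
  refine IsHomogeneous.sum _ _ _ fun j _ => ?_
  have h1 := (isHomogeneous_C (Fin (1 + 1)) (ψ l j)).mul
    (((isHomogeneous_X K (0 : Fin (1 + 1))).pow (j : ℕ)).mul
      ((isHomogeneous_X K (1 : Fin (1 + 1))).pow (r - j)))
  have h2 : 0 + (1 * (j : ℕ) + 1 * (r - j)) = r := by
    have := j.2
    omega
  rwa [h2] at h1

theorem Bf_hom (r : ℕ) (ψ : Fin (n + 1) → Fin (r + 1) → K) {F : MvPolynomial (Fin (n + 1)) K}
    {d : ℕ} (hF : F.IsHomogeneous d) : (Bf r ψ F).IsHomogeneous (r * d) :=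
  hF.aeval (cp r ψ) fun l => cp_hom r ψ l

theorem eval_cp (r : ℕ) (ψ : Fin (n + 1) → Fin (r + 1) → K) (y : Fin (1 + 1) → K)
    (l : Fin (n + 1)) : eval y (cp r ψ l) = cv r ψ (y 0) (y 1) l := by
  unfold cp cv
  rw [map_sum]
  refine Finset.sum_congr rfl fun j _ => ?_
  rw [map_mul, map_mul, map_pow, map_pow, eval_C, eval_X, eval_X]

theorem eval_Bf (r : ℕ) (ψ : Fin (n + 1) → Fin (r + 1) → K) (F : MvPolynomial (Fin (n + 1)) K)
    (y : Fin (1 + 1) → K) : eval y (Bf r ψ F) = eval (cv r ψ (y 0) (y 1)) F := by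
  unfold Bf
  rw [aeval_def, eval_eval₂]
  have h1 : (eval y).comp (algebraMap K (MvPolynomial (Fin (1 + 1)) K)) = RingHom.id K := by
    ext a
    simp
  rw [h1]
  have h2 : (fun s => eval y (cp r ψ s)) = cv r ψ (y 0) (y 1) := funext fun l => eval_cp r ψ y l
  rw [h2]
  rfl

theorem cp_map {L : Type} [Field L] (φ : K →+* L) (r : ℕ) (ψ : Fin (n + 1) → Fin (r + 1) → K)
    (l : Fin (n + 1)) : map φ (cp r ψ l) = cp r (fun l j => φ (ψ l j)) l := by
  unfold cp
  rw [map_sum]
  refine Finset.sum_congr rfl fun j _ => ?_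
  rw [map_mul, map_mul, map_pow, map_pow, map_C, map_X, map_X]

theorem Bf_map {L : Type} [Field L] (φ : K →+* L) (r : ℕ) (ψ : Fin (n + 1) → Fin (r + 1) → K)
    (F : MvPolynomial (Fin (n + 1)) K) :
    map φ (Bf r ψ F) = Bf r (fun l j => φ (ψ l j)) (map φ F) := by
  unfold Bf
  rw [aeval_def, aeval_def, eval₂_map, hom_eval₂]
  have h1 : (map φ).comp (algebraMap K (MvPolynomial (Fin (1 + 1)) K)) =
      (algebraMap L (MvPolynomial (Fin (1 + 1)) L)).comp φ := by
    ext a
    simp [algebraMap_eq]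
  rw [h1]
  congr 1
  funext l
  exact cp_map φ r ψ l

theorem cv_map {L : Type} [Field L] (φ : K →+* L) (r : ℕ) (ψ : Fin (n + 1) → Fin (r + 1) → K)
    (s t : K) : (fun l => φ (cv r ψ s t l)) = cv r (fun l j => φ (ψ l j)) (φ s) (φ t) := by
  funext l
  unfold cv
  rw [map_sum]
  refine Finset.sum_congr rfl fun j _ => ?_
  rw [map_mul, map_mul, map_pow, map_pow]

end bf

section ge

variable {κ L : Type} [Field κ] [Field L] [Algebra κ L] {n m : ℕ} {P : Place κ L}

/-- A bound for the orders of the coefficients. -/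
def GeM (P : Place κ L) (c : ℤ) (G : MvPolynomial (Fin (m + 1)) L) : Prop :=
  ∀ u, Ge P c (G.coeff u)

theorem GeM.mul {a b : ℤ} {p q : MvPolynomial (Fin (m + 1)) L} (hp : GeM P a p)
    (hq : GeM P b q) : GeM P (a + b) (p * q) := ge_coeff_mul P hp hq

theorem GeM.const {a : ℤ} {c : L} (h : Ge P a c) : GeM P a (C c : MvPolynomial (Fin (m + 1)) L) := by
  classical
  intro u
  rw [coeff_C]
  split_ifs
  · exact h
  · exact Ge.zero

theorem GeM.sum {ι : Type*} {s : Finset ι} {f : ι → MvPolynomial (Fin (m + 1)) L} {a : ℤ}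
    (h : ∀ i ∈ s, GeM P a (f i)) : GeM P a (∑ i ∈ s, f i) := by
  intro u
  rw [coeff_sum]
  exact Ge.sum _ _ fun i hi => h i hi u

theorem GeM.pow {a : ℤ} {p : MvPolynomial (Fin (m + 1)) L} (hp : GeM P a p) (e : ℕ) :
    GeM P (e * a) (p ^ e) := by
  induction e with
  | zero =>
    rw [pow_zero, Nat.cast_zero, zero_mul, ← C_1]
    exact GeM.const Ge.one
  | succ e ih =>
    rw [pow_succ]
    have h1 : (((e + 1 : ℕ) : ℤ)) * a = e * a + a := by push_cast; ring
    rw [h1]
    exact ih.mul hp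

theorem GeM.prod {ι : Type*} {s : Finset ι} {f : ι → MvPolynomial (Fin (m + 1)) L} {a : ι → ℤ}
    (h : ∀ i ∈ s, GeM P (a i) (f i)) : GeM P (∑ i ∈ s, a i) (∏ i ∈ s, f i) := by
  classical
  induction s using Finset.induction_on with
  | empty =>
    rw [Finset.sum_empty, Finset.prod_empty, ← C_1]
    exact GeM.const Ge.one
  | insert i s hi ih =>
    rw [Finset.sum_insert hi, Finset.prod_insert hi]
    exact (h i (Finset.mem_insert_self i s)).mul
      (ih fun j hj => h j (Finset.mem_insert_of_mem hj))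

theorem GeM.X (i : Fin (m + 1)) : GeM P 0 (X i : MvPolynomial (Fin (m + 1)) L) := fun u =>
  ge_X P i u

/-- The coefficients of the binary form. -/
theorem ge_Bf {r d : ℕ} {g h : ℤ} {ψ : Fin (n + 1) → Fin (r + 1) → L}
    {F : MvPolynomial (Fin (n + 1)) L} (hF : F.IsHomogeneous d) (hg : ∀ u, Ge P (-g) (F.coeff u))
    (hh : ∀ l j, Ge P (-h) (ψ l j)) : GeM P (-(g + d * h)) (Bf r ψ F) := by
  unfold Bf
  rw [aeval_def, eval₂_eq']
  refine GeM.sum fun α hα => ?_
  have h1 : ∀ l, GeM P (-h) (cp r ψ l) := by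
    intro l
    unfold cp
    refine GeM.sum fun j _ => ?_
    have h2 := (GeM.const (m := 1) (hh l j)).mul
      (((GeM.X (P := P) (0 : Fin (1 + 1))).pow (j : ℕ)).mul
        ((GeM.X (P := P) (1 : Fin (1 + 1))).pow (r - j)))
    rwa [mul_zero, mul_zero, add_zero, add_zero] at h2
  have h3 := (GeM.const (m := 1) (hg α)).mul (GeM.prod (s := Finset.univ)
    (fun l _ => (h1 l).pow (α l)))
  have h4 : -g + ∑ l, (α l : ℤ) * -h = -(g + d * h) := by
    have h5 : α.degree = d := deg_of_mem hF hα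
    have h6 : ∑ l, (α l : ℤ) = d := by
      rw [← h5, Finsupp.degree_eq_sum]
      push_cast
      rfl
    rw [← Finset.sum_mul, h6]
    ring
  rwa [h4] at h3

end ge

/-- The heights of the integral points on rational curves of bounded height. -/
theorem bin_bound (r d : ℕ) :
    ∃ c : ℤ, 0 ≤ c ∧ ∀ (n : ℕ) (κ L Ω : Type) [Field κ] [Field L] [Field Ω] [Algebra κ L]
      [Algebra L Ω] [IsAlgClosed κ] [CharZero κ] [IsFF κ L] [IsAlgClosed Ω] (D : Derivation κ L L)
      (e : Place κ L → ℤ) (E : ℤ), D ≠ 0 → Loc e E → (∀ P f, Ge P 0 f → Ge P (-e P) (D f)) →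
      ∀ (F : MvPolynomial (Fin (n + 1)) L), F.IsHomogeneous d →
      ∀ (g : Place κ L → ℤ) (G : ℤ), Loc g G → (∀ P u, Ge P (-g P) (F.coeff u)) →
      ∀ (s : Place κ L → ℤ) (S : ℤ), Loc s S → ∀ (h : Place κ L → ℤ) (H : ℤ), Loc h H →
      ∀ (ψ : Fin (n + 1) → Fin (r + 1) → L) (Λ : Fin (r + 1) → Fin (n + 1) → L),
      (∀ P l j, Ge P (-h P) (ψ l j)) → (∀ P l j, Ge P (-h P) (Λ j l)) →
      (∀ i j, ∑ l, Λ i l * ψ l j = if i = j then 1 else 0) →
      ∀ (x : Fin (n + 1) → L) (c0 v : L), c0 ≠ 0 → (∀ l, x l = c0 * cv r ψ v 1 l) →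
      eval x F ≠ 0 → (∀ P, s P = 0 → P.ord (eval x F) ≤ d * pord P x) →
      ¬ Pun 2 (mapF (algebraMap L Ω) (fun _ : Unit => Bf r ψ F)) ∅
        (fun j => algebraMap L Ω ((![v, 1] : Fin (1 + 1) → L) j))
        (fun j => algebraMap L Ω ((![1, 0] : Fin (1 + 1) → L) j)) →
      pht κ x ≤ c * (G + H + S + E) := by
  classical
  obtain ⟨c, hc0, hc⟩ := lineM_u 1 Unit (fun _ => r * d) ∅
  refine ⟨r * (c * (d + 1)) + 1, by positivity, ?_⟩
  intro n κ L Ω _ _ _ _ _ _ _ _ _ D e E hD he hloss F hF g G hg hgF s S hs h H hh ψ Λ hψ hΛ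
    hΛψ x c0 v hc00 hx hxF hint hpun
  have hcv : ∀ i : Fin (r + 1), ∑ l, Λ i l * cv r ψ v 1 l = v ^ (i : ℕ) := by
    intro i
    unfold cv
    simp only [one_pow, mul_one, Finset.mul_sum]
    rw [Finset.sum_comm]
    have h1 : ∀ j : Fin (r + 1), ∑ l, Λ i l * (ψ l j * v ^ (j : ℕ)) =
        if i = j then v ^ (j : ℕ) else 0 := by
      intro j
      have h2 : ∑ l, Λ i l * (ψ l j * v ^ (j : ℕ)) = (∑ l, Λ i l * ψ l j) * v ^ (j : ℕ) := by
        rw [Finset.sum_mul]
        exact Finset.sum_congr rfl fun l _ => by ring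
      rw [h2, hΛψ, ite_mul, one_mul, zero_mul]
    rw [Finset.sum_congr rfl fun j _ => h1 j, Finset.sum_ite_eq]
    simp
  have hΛx : ∀ i : Fin (r + 1), ∑ l, Λ i l * x l = c0 * v ^ (i : ℕ) := by
    intro i
    rw [← hcv, Finset.mul_sum]
    exact Finset.sum_congr rfl fun l _ => by rw [hx]; ring
  have hx0 : x ≠ 0 := by
    rintro rfl
    have h1 := hΛx 0
    simp only [Pi.zero_apply, mul_zero, Finset.sum_const_zero, Fin.val_zero, pow_zero,
      mul_one] at h1
    exact hc00 h1.symm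
  have hxsm : x = c0 • cv r ψ v 1 := funext fun l => hx l
  have hev : eval x F = c0 ^ d * eval (cv r ψ v 1) F := by
    rw [hxsm, eval_smul_hom hF]
  obtain ⟨x', hx'⟩ : ∃ x' : Fin (1 + 1) → L, x' = ![v, 1] := ⟨_, rfl⟩
  obtain ⟨y', hy'⟩ : ∃ y' : Fin (1 + 1) → L, y' = ![1, 0] := ⟨_, rfl⟩
  have hx'0 : x' 0 = v := by rw [hx']; rfl
  have hx'1 : x' 1 = 1 := by rw [hx']; rfl
  have hy'0 : y' 0 = 1 := by rw [hy']; rfl
  have hy'1 : y' 1 = 0 := by rw [hy']; rfl
  rw [← hx', ← hy'] at hpun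
  have hevB : eval x' (Bf r ψ F) = eval (cv r ψ v 1) F := by
    rw [eval_Bf, hx'0, hx'1]
  have hcv0 : eval (cv r ψ v 1) F ≠ 0 := fun h0 => hxF (by rw [hev, h0, mul_zero])
  have hik : pl x' y' (0, 1) ≠ 0 := by
    unfold pl
    simp only [hx'0, hx'1, hy'0, hy'1]
    simp
  have hfh : fht κ (pl x' y') ≤ 0 := by
    have h1 : ∀ P : Place κ L, po P (pl x' y') = 0 := by
      intro P
      obtain ⟨q, hq, hqo⟩ := Pool.Agent.Y735.exists_po P (f := pl x' y')
        (fun h0 => hik (by rw [h0]; rfl))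
      rw [← hqo]
      have h2 : pl x' y' q = 0 ∨ pl x' y' q = 1 ∨ pl x' y' q = -1 := by
        obtain ⟨i, j⟩ := q
        unfold pl
        fin_cases i <;> fin_cases j
        · left; simp only [Fin.zero_eta]; ring
        · right; right
          simp only [Fin.zero_eta, Fin.mk_one, hx'0, hx'1, hy'0, hy'1]; ring
        · right; left
          simp only [Fin.zero_eta, Fin.mk_one, hx'0, hx'1, hy'0, hy'1]; ring
        · left; simp only [Fin.mk_one]; ring
      rcases h2 with h2 | h2 | h2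
      · exact absurd h2 hq
      · rw [h2, P.ord_one]
      · rw [h2, P.ord_neg, P.ord_one]
    unfold fht
    simp only [h1, finsum_zero, neg_zero, le_refl]
  have hS0 := hs.B_nonneg
  have hH0 := hh.B_nonneg
  have hG0 := hg.B_nonneg
  have hE0 := he.B_nonneg
  -- the orders
  have hord : ∀ P : Place κ L, h P = 0 → pord P x ≤ P.ord c0 + r * pord P x' := by
    intro P hP
    have h1 : ∀ i : Fin (r + 1), Ge P (pord P x) (c0 * v ^ (i : ℕ)) := by
      intro i
      rw [← hΛx]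
      refine Ge.sum _ _ fun l _ => ?_
      have h2 := hΛ P l i
      rw [hP, neg_zero] at h2
      have h3 := h2.mul (ge_pord P x l)
      rwa [zero_add] at h3
    obtain ⟨j, hj, hjo⟩ := exists_pord P (f := x') ⟨1, by rw [hx'1]; exact one_ne_zero⟩
    rw [← hjo]
    fin_cases j
    · have hv : v ≠ 0 := by rw [← hx'0]; exact hj
      have h2 := (h1 (Fin.last r)).resolve_left (mul_ne_zero hc00 (pow_ne_zero _ hv))
      rw [P.ord_mul hc00 (pow_ne_zero _ hv), P.ord_pow] at h2
      have h3 : P.ord (x' 0) = P.ord v := by rw [hx'0]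
      have h4 : ((Fin.last r : Fin (r + 1)) : ℕ) = r := Fin.val_last r
      rw [h4] at h2
      change pord P x ≤ P.ord c0 + r * P.ord (x' 0)
      rw [h3]
      exact h2
    · have h2 := h1 0
      rw [Fin.val_zero, pow_zero, mul_one] at h2
      have h3 := h2.resolve_left hc00
      change pord P x ≤ P.ord c0 + r * P.ord (x' 1)
      rw [hx'1, P.ord_one, mul_zero, add_zero]
      exact h3
  have hmain := hc κ L Ω D e E hD he hloss (fun _ : Unit => Bf r ψ F) (fun _ => Bf_hom r ψ hF)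
    (fun P => g P + d * h P) (G + d * H) (hg.add (hh.mul (by positivity)))
    (fun P b u => ge_Bf hF (hgF P) (hψ P) u) (fun P => s P + h P) (S + H) (hs.add hh) 0 x' y'
    (0, 1) hik hfh (fun b _ => by rw [hevB]; exact hcv0) (fun P hP b _ => by
      have h1 := hs.nonneg P
      have h2 := hh.nonneg P
      have h3 : s P = 0 := by omega
      have h4 : h P = 0 := by omega
      have h5 := hint P h3
      rw [hevB]
      rw [hev, P.ord_mul (pow_ne_zero _ hc00) hcv0, P.ord_pow] at h5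
      have h6 := hord P h4
      have h7 : (d : ℤ) * pord P x ≤ d * (P.ord c0 + r * pord P x') :=
        mul_le_mul_of_nonneg_left h6 (by positivity)
      push_cast
      nlinarith) hpun
  have hv : hgt κ v ≤ c * (G + d * H + 0 + (S + H) + E) := by
    refine le_trans ?_ hmain
    by_cases hv : v = 0
    · rw [hv]
      have := Pool.Agent.TH145.MG.hgt_const (k := κ) (L := L) 0
      rw [map_zero] at this
      rw [this]
      refine pht_nonneg (k := κ) ?_
      intro h0
      have h1 := congrFun h0 1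
      rw [hx'1] at h1
      exact one_ne_zero h1
    · have h2 := Pool.Agent.W603.CX.hgt_le_pht (k := κ) x' (j := 0) (l := 1)
        (by rw [hx'0]; exact hv) (by rw [hx'1]; exact one_ne_zero)
      rwa [hx'0, hx'1, div_one] at h2
  have hpht : pht κ x ≤ H + r * hgt κ v := by
    refine pht_le_of hx0 (c := fun P => h P + r * max (-P.ord v) 0)
      (hh.add ((loc_hgt v).mul (by positivity))) c0⁻¹ fun P => ?_
    obtain ⟨l, hl, hlo⟩ := exists_pord P (f := x) (Function.ne_iff.1 hx0)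
    have h1 : Ge P (P.ord c0 + (-h P + r * (-max (-P.ord v) 0))) (x l) := by
      rw [hx]
      refine (Ge.mul (Or.inr le_rfl) ?_)
      unfold cv
      refine Ge.sum _ _ fun j _ => ?_
      refine (hψ P l j).mul ?_
      rw [one_pow, mul_one]
      have h2 : Ge P (-max (-P.ord v) 0) v := Or.inr (by
        have := le_max_left (-P.ord v) 0
        omega)
      refine (h2.pow j).mono ?_
      have h3 : ((j : ℕ) : ℤ) ≤ r := by
        have := j.2
        omega
      have h4 : 0 ≤ max (-P.ord v) 0 := le_max_right _ _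
      nlinarith
    have h2 := h1.resolve_left hl
    rw [hlo] at h2
    rw [P.ord_inv]
    linarith
  refine hpht.trans ?_
  have h1 : (r : ℤ) * hgt κ v ≤ r * (c * (G + d * H + 0 + (S + H) + E)) :=
    mul_le_mul_of_nonneg_left hv (by positivity)
  have hrc : 0 ≤ (r : ℤ) * c := mul_nonneg (by positivity) hc0
  have e1 : 0 ≤ (r : ℤ) * c * ((d : ℤ) * G) := mul_nonneg hrc (mul_nonneg (by positivity) hG0)
  have e2 : 0 ≤ (r : ℤ) * c * ((d : ℤ) * S) := mul_nonneg hrc (mul_nonneg (by positivity) hS0)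
  have e3 : 0 ≤ (r : ℤ) * c * ((d : ℤ) * E) := mul_nonneg hrc (mul_nonneg (by positivity) hE0)
  nlinarith

end Pool.Agent.H435.QL
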